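import Pool.Agent.Y513.Gam.Plank

/-!
# The plank theorem for countably many generalized strips
-/

set_option autoImplicit false

open MeasureTheory Metric Set Module
open scoped ENNReal NNReal
open Pool.Agent.Results.MP_0a22a9_gt.NullSets (E IsPolyhedral IsProx strip IsGenStrip lipConst
  width gamma poly poly_isPolyhedral poly_lip subset_strip)

namespace Pool.Agent.Y513.Gam

variable {d : ℕ}

/-- a generalized strip of finite width comes from a polyhedral function with almost optimal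
Lipschitz constant -/
lemma exists_fun {S : Set (E d)} (hfin : width S ≠ ⊤) {η : ℝ≥0} (hη : 0 < η) :
    ∃ (f : E d → ℝ) (L : ℝ≥0), IsPolyhedral f ∧ S = strip f ∧ LipschitzWith L f ∧
      2 * (L : ℝ≥0∞) ≤ width S + η := by
  set x : ℝ≥0∞ := ⨅ (f : E d → ℝ) (_ : IsPolyhedral f) (_ : S = strip f), lipConst f with hx
  have hw : width S = 2 * x := rfl
  have hxfin : x ≠ ⊤ := by
    intro h
    apply hfin
    rw [hw, h]
    exact ENNReal.mul_top two_ne_zero
  have hη2 : ((η / 2 : ℝ≥0) : ℝ≥0∞) ≠ 0 := by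
    have : 0 < η / 2 := half_pos hη
    exact_mod_cast this.ne'
  obtain ⟨y, hy⟩ : ∃ y : ℝ≥0∞, y = x + (η / 2 : ℝ≥0) := ⟨_, rfl⟩
  have h1 : x < y := by
    rw [hy]
    exact ENNReal.lt_add_right hxfin hη2
  rw [hx] at h1
  obtain ⟨f, h2⟩ := iInf_lt_iff.mp h1
  obtain ⟨hf, h3⟩ := iInf_lt_iff.mp h2
  obtain ⟨hS, h4⟩ := iInf_lt_iff.mp h3
  unfold lipConst at h4
  obtain ⟨L, h5⟩ := iInf_lt_iff.mp h4
  obtain ⟨hL, h6⟩ := iInf_lt_iff.mp h5
  refine ⟨f, L, hf, hS, hL, ?_⟩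
  rw [hy] at h6
  calc 2 * (L : ℝ≥0∞) ≤ 2 * (x + (η / 2 : ℝ≥0)) := by gcongr
    _ = width S + η := by
        rw [hw, mul_add]
        congr 1
        rw [← ENNReal.coe_two, ← ENNReal.coe_mul]
        congr 1
        exact mul_div_cancel₀ _ two_ne_zero

/-- **Plank theorem.** Generalized strips of total width less than `2 (ρ - s)` leave at least the
measure of a ball of radius `s` uncovered in every ball of radius `ρ`. -/
theorem plank (c : E d) {ρ s : ℝ≥0} {S : ℕ → Set (E d)}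
    (hsum : ∑' i, width (S i) + 2 * s < 2 * ρ) :
    volume (ball c (s : ℝ)) ≤ volume (ball c (ρ : ℝ) \ ⋃ i, S i) := by
  classical
  obtain ⟨δ, hδ, hδ2⟩ := ENNReal.lt_iff_exists_add_pos_lt.mp hsum
  have hWfin : ∑' i, width (S i) ≠ ⊤ := by
    intro h
    rw [h] at hsum
    simp at hsum
  have hwfin : ∀ i, width (S i) ≠ ⊤ := fun i => ENNReal.ne_top_of_tsum_ne_top hWfin i
  obtain ⟨η, hη0, c', hc', hcδ⟩ := NNReal.exists_pos_sum_of_countable (ι := ℕ) hδ.ne'
  choose f L hf hSf hL hLw using fun i => exists_fun (hwfin i) (hη0 i)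
  choose n a b hfab using hf
  -- the sum of the Lipschitz constants
  have hLsum : 2 * ∑' i, (L i : ℝ≥0∞) + 2 * s < 2 * ρ := by
    calc 2 * ∑' i, (L i : ℝ≥0∞) + 2 * s = ∑' i, 2 * (L i : ℝ≥0∞) + 2 * s := by
          rw [ENNReal.tsum_mul_left]
      _ ≤ ∑' i, (width (S i) + (η i : ℝ≥0∞)) + 2 * s := by
          gcongr with i
          exact hLw i
      _ = ∑' i, width (S i) + c' + 2 * s := by
          rw [ENNReal.tsum_add, ← ENNReal.coe_tsum hc'.summable, hc'.tsum_eq]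
      _ ≤ ∑' i, width (S i) + 2 * s + δ := by
          rw [add_right_comm]
          gcongr
      _ < 2 * ρ := hδ2
  have hm : ∀ m : ℕ, (s : ℝ) + ∑ k : Fin m, (L k : ℝ) ≤ ρ := by
    intro m
    have h1 : ∑ k : Fin m, (L k : ℝ≥0∞) ≤ ∑' i, (L i : ℝ≥0∞) := by
      rw [Fin.sum_univ_eq_sum_range (fun i => (L i : ℝ≥0∞)) m]
      exact ENNReal.sum_le_tsum _
    have h2 : 2 * (((s + ∑ k : Fin m, L k : ℝ≥0)) : ℝ≥0∞) < 2 * (ρ : ℝ≥0∞) := by
      refine lt_of_le_of_lt ?_ hLsum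
      push_cast
      rw [mul_add, add_comm]
      gcongr
    have h3 : (s + ∑ k : Fin m, L k : ℝ≥0) ≤ ρ := by
      by_contra hcon
      rw [not_le] at hcon
      have h4 : 2 * (ρ : ℝ≥0∞) ≤ 2 * (((s + ∑ k : Fin m, L k : ℝ≥0)) : ℝ≥0∞) := by
        gcongr
      exact absurd h2 (not_lt.mpr h4)
    exact_mod_cast h3
  -- the uncovered sets
  let O : ℕ → Set (E d) := fun k => ⋃ i, good (a k) (b k) i
  have hO : ∀ k, IsOpen (O k) := fun k => isOpen_iUnion fun i => isOpen_good _ _ _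
  have hOS : ∀ k, ∀ x ∈ O k, x ∉ S k := by
    intro k x hx
    obtain ⟨i, hi⟩ := mem_iUnion.mp hx
    rw [hSf k]
    exact not_mem_strip (hfab k) hi
  let V : ℕ → Set (E d) := fun m => ball c (ρ : ℝ) ∩ ⋂ k : Fin m, O k
  have hVm : ∀ m, MeasurableSet (V m) := fun m =>
    measurableSet_ball.inter (MeasurableSet.iInter fun k => (hO k).measurableSet)
  have hVanti : Antitone V := by
    intro m m' hmm x hx
    refine ⟨hx.1, ?_⟩
    rw [mem_iInter]
    intro k
    exact mem_iInter.mp hx.2 ⟨k, k.2.trans_le hmm⟩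
  have hVge : ∀ m, volume (ball c (s : ℝ)) ≤ volume (V m) := by
    intro m
    refine (plank_finite (κ := Fin m) (fun k => n k) (fun k => a k) (fun k => b k)
      (fun k => f k) (fun k => hfab k) (fun k => L k) (fun k => hL k) c s).trans ?_
    apply measure_mono
    exact inter_subset_inter_left _ (ball_subset_ball (hm m))
  have hlim := tendsto_measure_iInter_atTop (μ := (volume : Measure (E d)))
    (fun m => (hVm m).nullMeasurableSet) hVanti
    ⟨0, ((measure_mono inter_subset_left).trans_lt measure_ball_lt_top).ne⟩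
  refine (ge_of_tendsto' hlim hVge).trans (measure_mono ?_)
  intro x hx
  have h1 : ∀ m, x ∈ V m := mem_iInter.mp hx
  refine ⟨(h1 0).1, ?_⟩
  rw [mem_iUnion, not_exists]
  intro k
  exact hOS k x (mem_iInter.mp (h1 (k + 1)).2 ⟨k, Nat.lt_succ_self k⟩)

/-- **The lower bound for balls.** -/
theorem le_gamma_ball (c : E d) (ρ : ℝ≥0) : 2 * (ρ : ℝ≥0∞) ≤ gamma (ball c (ρ : ℝ)) := by
  by_contra hcon
  rw [not_le] at hcon
  unfold gamma at hcon
  obtain ⟨S, h1⟩ := iInf_lt_iff.mp hcon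
  obtain ⟨hS, h2⟩ := iInf_lt_iff.mp h1
  obtain ⟨hcov, h3⟩ := iInf_lt_iff.mp h2
  obtain ⟨δ, hδ, hδ2⟩ := ENNReal.lt_iff_exists_add_pos_lt.mp h3
  have h4 : ∑' i, width (S i) + 2 * ((δ / 2 : ℝ≥0) : ℝ≥0∞) < 2 * ρ := by
    have h5 : 2 * ((δ / 2 : ℝ≥0) : ℝ≥0∞) = δ := by
      rw [← ENNReal.coe_two, ← ENNReal.coe_mul]
      congr 1
      exact mul_div_cancel₀ _ two_ne_zero
    rwa [h5]
  have h5 := plank c h4
  rw [sdiff_eq_empty.mpr hcov, measure_empty] at h5
  have h6 : 0 < volume (ball c ((δ / 2 : ℝ≥0) : ℝ)) := by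
    apply measure_ball_pos
    exact_mod_cast half_pos hδ
  exact absurd h5 (not_le.mpr h6)

end Pool.Agent.Y513.Gam
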