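import Pool.Agent.Y513.Gam.Sharp

/-!
# A plank theorem for generalized strips

Let `f_k` be finitely many polyhedral functions with pieces `⟪a k i, y⟫ + b k i`. For every centre
`c` let `i` maximise `‖c + ∑ a k (i k)‖² / 2 + ∑ (b k (i k) - ‖a k (i k)‖² / 2)`. Then, for almost
all `c`, the point `c + ∑ a k (i k)` lies outside all the strips `S(f_k)`, and this map does not
decrease distances.
-/

set_option autoImplicit false

open MeasureTheory Metric Set Module
open scoped ENNReal NNReal
open Pool.Agent.Results.MP_0a22a9_gt.NullSets (E IsPolyhedral IsProx strip IsGenStrip lipConst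
  width gamma poly poly_isPolyhedral poly_lip subset_strip)

namespace Pool.Agent.Y513.Gam

variable {d : ℕ}

/-! ### The moved open cells -/

/-- the open cell of the `i`-th piece, moved by its gradient -/
def good {n : ℕ} (a : Fin (n + 1) → E d) (b : Fin (n + 1) → ℝ) (i : Fin (n + 1)) : Set (E d) :=
  {x | ∀ j, (a j = a i → b j ≤ b i) ∧
    (a j ≠ a i → inner ℝ (a j) (x - a i) + b j < inner ℝ (a i) (x - a i) + b i)}

lemma isOpen_good {n : ℕ} (a : Fin (n + 1) → E d) (b : Fin (n + 1) → ℝ) (i : Fin (n + 1)) :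
    IsOpen (good a b i) := by
  have h1 : good a b i = ⋂ j, {x | (a j = a i → b j ≤ b i) ∧
      (a j ≠ a i → inner ℝ (a j) (x - a i) + b j < inner ℝ (a i) (x - a i) + b i)} := by
    ext x
    simp [good]
  rw [h1]
  apply isOpen_iInter_of_finite
  intro j
  by_cases hj : a j = a i
  · by_cases hb : b j ≤ b i
    · convert isOpen_univ
      ext x
      simp [hj, hb]
    · convert isOpen_empty
      ext x
      simp [hj, hb]
  · have h2 : {x | (a j = a i → b j ≤ b i) ∧
        (a j ≠ a i → inner ℝ (a j) (x - a i) + b j < inner ℝ (a i) (x - a i) + b i)}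
        = {x | inner ℝ (a j) (x - a i) + b j < inner ℝ (a i) (x - a i) + b i} := by
      ext x
      simp [hj]
    rw [h2]
    apply isOpen_lt <;> fun_prop

section
variable {n : ℕ} {a : Fin (n + 1) → E d} {b : Fin (n + 1) → ℝ} {f : E d → ℝ}

lemma piece_le (hf : ∀ x, f x = Finset.univ.sup' Finset.univ_nonempty
    fun i => inner ℝ (a i) x + b i) (i : Fin (n + 1)) (x : E d) :
    inner ℝ (a i) x + b i ≤ f x := by
  rw [hf]
  exact Finset.le_sup' (fun i => inner ℝ (a i) x + b i) (Finset.mem_univ i)

/-- near the cell point the function is the `i`-th piece -/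
lemma eventually_eq_piece (hf : ∀ x, f x = Finset.univ.sup' Finset.univ_nonempty
    fun i => inner ℝ (a i) x + b i) {i : Fin (n + 1)} {x : E d} (hx : x ∈ good a b i) :
    ∀ᶠ y in nhds (x - a i), f y = inner ℝ (a i) y + b i := by
  have h1 : ∀ j, ∀ᶠ y in nhds (x - a i), inner ℝ (a j) y + b j ≤ inner ℝ (a i) y + b i := by
    intro j
    by_cases hj : a j = a i
    · refine Filter.Eventually.of_forall fun y => ?_
      rw [hj]
      have := (hx j).1 hj
      linarith
    · have h2 : IsOpen {y : E d | inner ℝ (a j) y + b j < inner ℝ (a i) y + b i} := by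
        apply isOpen_lt <;> fun_prop
      filter_upwards [h2.mem_nhds ((hx j).2 hj)] with y hy using le_of_lt hy
  filter_upwards [Filter.eventually_all.mpr h1] with y hy
  apply le_antisymm
  · rw [hf]
    exact Finset.sup'_le _ _ fun j _ => hy j
  · exact piece_le hf i y

lemma hasFDerivAt_piece (i : Fin (n + 1)) (y : E d) :
    HasFDerivAt (fun y : E d => inner ℝ (a i) y + b i) (innerSL ℝ (a i)) y :=
  (innerSL ℝ (a i)).hasFDerivAt.add_const (b i)

/-- points of the moved open cells are not in the strip -/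
lemma not_mem_strip (hf : ∀ x, f x = Finset.univ.sup' Finset.univ_nonempty
    fun i => inner ℝ (a i) x + b i) {i : Fin (n + 1)} {x : E d} (hx : x ∈ good a b i) :
    x ∉ strip f := by
  rintro ⟨y', hy', hnd⟩
  set y := x - a i with hy
  have hev := eventually_eq_piece hf hx
  have hfy : f y = inner ℝ (a i) y + b i := hev.self_of_nhds
  have hdiff : DifferentiableAt ℝ f y :=
    ((hasFDerivAt_piece (b := b) i y).congr_of_eventuallyEq hev).differentiableAt
  have hyy : y' = y := by
    have h1 := hy' y
    have h2 := piece_le hf i y'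
    have hxy : x = y + a i := by rw [hy]; abel
    have h3 : ‖x - y'‖ ^ 2 = ‖a i‖ ^ 2 + 2 * inner ℝ (a i) (y - y') + ‖y - y'‖ ^ 2 := by
      have : x - y' = a i + (y - y') := by rw [hxy]; abel
      rw [this, norm_add_sq_real]
    have h4 : ‖x - y‖ ^ 2 = ‖a i‖ ^ 2 := by
      have : x - y = a i := by rw [hxy]; abel
      rw [this]
    rw [inner_sub_right] at h3
    have h5 : ‖y - y'‖ ^ 2 ≤ 0 := by nlinarith
    have h6 : ‖y - y'‖ = 0 := by
      have := sq_nonneg ‖y - y'‖
      exact pow_eq_zero_iff (n := 2) (by norm_num) |>.mp (le_antisymm h5 this)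
    exact (sub_eq_zero.mp (norm_eq_zero.mp h6)).symm
  rw [hyy] at hnd
  exact hnd hdiff

/-- the gradient of an active cell is bounded by the Lipschitz constant -/
lemma norm_le_of_good (hf : ∀ x, f x = Finset.univ.sup' Finset.univ_nonempty
    fun i => inner ℝ (a i) x + b i) {L : ℝ≥0} (hL : LipschitzWith L f) {i : Fin (n + 1)}
    {x : E d} (hx : x ∈ good a b i) : ‖a i‖ ≤ L := by
  have hev := eventually_eq_piece hf hx
  have h1 : HasFDerivAt f (innerSL ℝ (a i)) (x - a i) :=
    (hasFDerivAt_piece (b := b) i (x - a i)).congr_of_eventuallyEq hev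
  have h2 := h1.le_of_lipschitz hL
  rwa [innerSL_apply_norm] at h2

end

/-! ### The maximising map -/

lemma sum_update' {κ : Type} [Fintype κ] [DecidableEq κ] {β : κ → Type} {M : Type*}
    [AddCommGroup M] (g : ∀ k, β k → M) (i : ∀ k, β k) (k0 : κ) (j : β k0) :
    ∑ k, g k (Function.update i k0 j k) = ∑ k, g k (i k) + (g k0 j - g k0 (i k0)) := by
  rw [← Finset.add_sum_erase _ _ (Finset.mem_univ k0),
    ← Finset.add_sum_erase (Finset.univ) (fun k => g k (i k)) (Finset.mem_univ k0)]
  rw [Function.update_self]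
  have h1 : ∑ k ∈ Finset.univ.erase k0, g k (Function.update i k0 j k)
      = ∑ k ∈ Finset.univ.erase k0, g k (i k) := by
    apply Finset.sum_congr rfl
    intro k hk
    rw [Function.update_of_ne (Finset.ne_of_mem_erase hk)]
  rw [h1]
  abel

lemma hyperplane_null {v : E d} (hv : v ≠ 0) (t : ℝ) :
    volume {c : E d | inner ℝ v c = t} = 0 := by
  by_cases h : ∃ c0 : E d, inner ℝ v c0 = t
  · obtain ⟨c0, hc0⟩ := h
    have h1 : {c : E d | inner ℝ v c = t}
        = (fun c => c + (-c0)) ⁻¹' (((innerSL ℝ v).toLinearMap.ker : Submodule ℝ (E d)) : Set (E d)) := by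
      ext c
      simp only [mem_ofPred_eq, mem_preimage, SetLike.mem_coe, LinearMap.mem_ker,
        ContinuousLinearMap.coe_coe, innerSL_apply_apply, inner_add_right, inner_neg_right]
      rw [hc0]
      constructor <;> intro h <;> linarith
    rw [h1, measure_preimage_add_right]
    apply Measure.addHaar_submodule
    intro htop
    have h2 : v ∈ ((innerSL ℝ v).toLinearMap.ker : Submodule ℝ (E d)) := by
      rw [htop]; trivial
    rw [LinearMap.mem_ker, ContinuousLinearMap.coe_coe, innerSL_apply_apply,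
      inner_self_eq_zero] at h2
    exact hv h2
  · have h1 : {c : E d | inner ℝ v c = t} = ∅ := by
      ext c
      simp only [mem_ofPred_eq, mem_empty_iff_false, iff_false]
      exact fun hc => h ⟨c, hc⟩
    rw [h1, measure_empty]

/-- **Plank theorem, finite form.** -/
theorem plank_finite {κ : Type} [Fintype κ] [DecidableEq κ] (n : κ → ℕ)
    (a : ∀ k, Fin (n k + 1) → E d) (b : ∀ k, Fin (n k + 1) → ℝ) (f : κ → E d → ℝ)
    (hf : ∀ k x, f k x = Finset.univ.sup' Finset.univ_nonempty
      fun i => inner ℝ (a k i) x + b k i)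
    (L : κ → ℝ≥0) (hL : ∀ k, LipschitzWith (L k) (f k)) (c0 : E d) (s : ℝ) :
    volume (ball c0 s) ≤
      volume (ball c0 (s + ∑ k, (L k : ℝ)) ∩ ⋂ k, ⋃ i, good (a k) (b k) i) := by
  classical
  let σ : (∀ k, Fin (n k + 1)) → E d := fun i => ∑ k, a k (i k)
  let G : E d → (∀ k, Fin (n k + 1)) → ℝ := fun c i =>
    ‖c + σ i‖ ^ 2 / 2 + ∑ k, (b k (i k) - ‖a k (i k)‖ ^ 2 / 2)
  have hmax : ∀ c, ∃ i, ∀ i', G c i' ≤ G c i := fun c => Finite.exists_max (G c)
  choose I hI using hmax
  -- the exceptional set
  let N : Set (E d) := ⋃ (i : ∀ k, Fin (n k + 1)) (i' : ∀ k, Fin (n k + 1)) (_ : σ i ≠ σ i'),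
    {c | G c i = G c i'}
  have hN : volume N = 0 := by
    simp only [N, measure_iUnion_null_iff]
    intro i i' hne
    have hv : σ i - σ i' ≠ 0 := sub_ne_zero.mpr hne
    refine measure_mono_null ?_ (hyperplane_null hv
      (‖σ i'‖ ^ 2 / 2 - ‖σ i‖ ^ 2 / 2 + ∑ k, (b k (i' k) - ‖a k (i' k)‖ ^ 2 / 2)
        - ∑ k, (b k (i k) - ‖a k (i k)‖ ^ 2 / 2)))
    intro c hc
    have hc' : G c i = G c i' := hc
    simp only [G, norm_add_sq_real] at hc'
    show inner ℝ (σ i - σ i') c = _
    rw [real_inner_comm, inner_sub_right]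
    linarith
  -- single changes
  have hchange : ∀ (c : E d) (i : ∀ k, Fin (n k + 1)) (k : κ) (j : Fin (n k + 1)),
      G c (Function.update i k j) - G c i
        = (inner ℝ (a k j) (c + σ i - a k (i k)) + b k j)
          - (inner ℝ (a k (i k)) (c + σ i - a k (i k)) + b k (i k)) := by
    intro c i k j
    have h1 : σ (Function.update i k j) = σ i + (a k j - a k (i k)) :=
      sum_update' (fun k (x : Fin (n k + 1)) => a k x) i k j
    have h2 : ∑ k', (b k' (Function.update i k j k') - ‖a k' (Function.update i k j k')‖ ^ 2 / 2)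
        = ∑ k', (b k' (i k') - ‖a k' (i k')‖ ^ 2 / 2)
          + ((b k j - ‖a k j‖ ^ 2 / 2) - (b k (i k) - ‖a k (i k)‖ ^ 2 / 2)) :=
      sum_update' (fun k (x : Fin (n k + 1)) => b k x - ‖a k x‖ ^ 2 / 2) i k j
    have h3 : c + σ (Function.update i k j) = (c + σ i) + (a k j - a k (i k)) := by
      rw [h1]; abel
    simp only [G]
    rw [h2, h3, norm_add_sq_real (c + σ i) (a k j - a k (i k)), norm_sub_sq_real,
      inner_sub_right, inner_sub_right, inner_sub_right, real_inner_comm (a k j) (c + σ i),
      real_inner_comm (a k (i k)) (c + σ i), real_inner_self_eq_norm_sq]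
    ring
  have hσupd : ∀ (i : ∀ k, Fin (n k + 1)) (k : κ) (j : Fin (n k + 1)),
      σ (Function.update i k j) = σ i + (a k j - a k (i k)) := fun i k j =>
    sum_update' (fun k (x : Fin (n k + 1)) => a k x) i k j
  have hgood : ∀ c, c ∉ N → ∀ k, c + σ (I c) ∈ good (a k) (b k) (I c k) := by
    intro c hc k j
    have h1 := hchange c (I c) k j
    have h2 := hI c (Function.update (I c) k j)
    constructor
    · intro hj
      rw [hj] at h1
      linarith
    · intro hj
      have h3 : G c (I c) ≠ G c (Function.update (I c) k j) := by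
        intro h4
        apply hc
        simp only [N, mem_iUnion]
        refine ⟨I c, Function.update (I c) k j, ?_, h4⟩
        rw [hσupd]
        intro h5
        apply hj
        have h6 : a k j - a k (I c k) = 0 := by
          have := h5.symm
          rwa [add_eq_left] at this
        exact sub_eq_zero.mp h6
      have h4 : G c (Function.update (I c) k j) < G c (I c) := lt_of_le_of_ne h2 h3.symm
      linarith
  have hnorm : ∀ c, c ∉ N → ‖σ (I c)‖ ≤ ∑ k, (L k : ℝ) := by
    intro c hc
    refine (norm_sum_le _ _).trans (Finset.sum_le_sum fun k _ => ?_)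
    exact norm_le_of_good (hf k) (hL k) (hgood c hc k)
  have hvol : volume (ball c0 s \ N) = volume (ball c0 s) := measure_sdiff_null hN
  rw [← hvol]
  apply volume_le_of_expansion (ψ := fun c => c + σ (I c))
  · rintro c ⟨hc, hcN⟩
    refine ⟨?_, ?_⟩
    · rw [mem_ball, dist_eq_norm] at hc ⊢
      have h1 : c + σ (I c) - c0 = (c - c0) + σ (I c) := by abel
      rw [h1]
      refine lt_of_le_of_lt (norm_add_le _ _) ?_
      have := hnorm c hcN
      linarith
    · rw [mem_iInter]
      intro k
      exact mem_iUnion.mpr ⟨I c k, hgood c hcN k⟩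
  · rintro c - c' -
    have h1 := hI c (I c')
    have h2 := hI c' (I c)
    simp only [G, norm_add_sq_real] at h1 h2
    have h3 : 0 ≤ inner ℝ (c - c') (σ (I c) - σ (I c')) := by
      rw [inner_sub_left, inner_sub_right, inner_sub_right]
      linarith
    have h4 : (c + σ (I c)) - (c' + σ (I c')) = (c - c') + (σ (I c) - σ (I c')) := by abel
    show ‖c - c'‖ ≤ ‖(c + σ (I c)) - (c' + σ (I c'))‖
    rw [h4]
    apply le_of_sq_le_sq _ (norm_nonneg _)
    rw [norm_add_sq_real]
    have := sq_nonneg ‖σ (I c) - σ (I c')‖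
    linarith

end Pool.Agent.Y513.Gam
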