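import Pool.Agent.Results.MP_0a22a9_gt.NullSets

/-!
# The sharp covering theorem for generalized strips

If no single generalized strip of half-width `ε` covers the compact set `K`, then all finite
subsets of the ball of radius `ε` can be mapped into `K` without decreasing any distance. By
compactness the whole ball can be mapped in this way, so `K` has at least the volume of the ball.
-/

set_option autoImplicit false

open MeasureTheory Metric Set Module
open scoped ENNReal NNReal
open Pool.Agent.Results.MP_0a22a9_gt.NullSets (E IsPolyhedral IsProx strip IsGenStrip lipConst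
  width gamma poly poly_isPolyhedral poly_lip subset_strip)
open Pool.Agent.W563.Strip

namespace Pool.Agent.Y513.Gam

/-! ### Heights -/

section
variable {E : Type*} [NormedAddCommGroup E] [InnerProductSpace ℝ E]
variable {ι : Type*} [Fintype ι] [DecidableEq ι]

/-- If the gradients cannot be mapped into `K` without decreasing distances, there are heights for
which no moved open cell meets `K`. -/
theorem exists_heights' {a : ι → E} {K : Set E} {ε R : ℝ} (hε : 0 < ε)
    (ha : ∀ i, ‖a i‖ ≤ ε)
    (hK : IsCompact K) (hR : ∀ x ∈ K, ‖x‖ ≤ R)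
    (hpack : ¬ ∃ x : ι → E, (∀ i, x i ∈ K) ∧ ∀ i j, ‖a i - a j‖ ≤ ‖x i - x j‖) :
    ∃ b : ι → ℝ, ∀ i, ∀ y ∈ cell a b i, y + a i ∉ K := by
  by_cases hKe : K = ∅
  · exact ⟨0, fun i y _ => by simp [hKe]⟩
  have hR0 : 0 ≤ R := by
    obtain ⟨x, hx⟩ := Set.nonempty_iff_ne_empty.2 hKe
    exact (norm_nonneg _).trans (hR x hx)
  set M : ℝ := 2 * ε * (R + ε) + 1 with hMdef
  have hM : 0 < M := by positivity
  have hfeas : Feas a K M (least a K M) := least_feas hM.le
  -- some index has height zero
  have h0 : ∃ i0, least a K M i0 = 0 := by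
    by_contra hcon
    push Not at hcon
    have hpos : ∀ i, 0 < least a K M i := fun i => lt_of_le_of_ne (hfeas.1 i).1 (hcon i).symm
    choose y hy hyK using fun i => touch hM.le hK (hpos i)
    exact hpack ⟨fun i => y i + a i, hyK, fun i j => sep (hy i) (hy j)⟩
  obtain ⟨i0, hi0⟩ := h0
  refine ⟨least a K M, fun i => hfeas.2 i ?_⟩
  by_contra hcon
  push Not at hcon
  have hpos : 0 < least a K M i := hM.trans_le hcon
  obtain ⟨y, hy, hyK⟩ := touch hM.le hK hpos
  have h1 := hy i0
  rw [hi0] at h1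
  have h2 : ‖y‖ ≤ R + ε := by
    have h3 : y = (y + a i) - a i := by abel
    rw [h3]
    exact (norm_sub_le _ _).trans (add_le_add (hR _ hyK) (ha i))
  have h3 : inner ℝ (a i) y - inner ℝ (a i0) y ≤ 2 * ε * (R + ε) := by
    rw [← inner_sub_left]
    refine (real_inner_le_norm _ _).trans ?_
    have h4 : ‖a i - a i0‖ ≤ 2 * ε := by
      refine (norm_sub_le _ _).trans ?_
      linarith [ha i, ha i0]
    exact mul_le_mul h4 h2 (norm_nonneg _) (by positivity)
  linarith

/-- compactness: if all finite subsets of `B` can be mapped into the compact set `K` without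
decreasing distances, then so can `B` -/
lemma exists_expansion {B K : Set E} (hK : IsCompact K) (hBne : B.Nonempty)
    (h : ∀ (n : ℕ) (a : Fin (n + 1) → E), Function.Injective a → (∀ i, a i ∈ B) →
      ∃ x : Fin (n + 1) → E, (∀ i, x i ∈ K) ∧ ∀ i j, ‖a i - a j‖ ≤ ‖x i - x j‖) :
    ∃ ψ : E → E, (∀ y ∈ B, ψ y ∈ K) ∧ ∀ y ∈ B, ∀ z ∈ B, ‖y - z‖ ≤ ‖ψ y - ψ z‖ := by
  classical
  obtain ⟨y0, hy0⟩ := hBne
  obtain ⟨x0, hx0, -⟩ := h 0 (fun _ => y0) (fun i j _ => Fin.ext (by omega)) (fun _ => hy0)
  have hk0 : x0 0 ∈ K := hx0 0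
  have hcomp : IsCompact (Set.pi univ fun _ : E => K) := isCompact_univ_pi fun _ => hK
  let t : B × B → Set (E → E) := fun p => {ψ | ‖(p.1 : E) - p.2‖ ≤ ‖ψ p.1 - ψ p.2‖}
  have ht : ∀ p, IsClosed (t p) := by
    intro p
    apply isClosed_le continuous_const
    exact ((continuous_apply (p.1 : E)).sub (continuous_apply (p.2 : E))).norm
  obtain ⟨ψ, hψK, hψ⟩ := hcomp.inter_iInter_nonempty t ht (by
    intro u
    -- the points that occur
    set F : Finset E := insert y0 (u.image (fun p => (p.1 : E)) ∪ u.image (fun p => (p.2 : E)))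
      with hF
    have hFB : ∀ y ∈ F, y ∈ B := by
      intro y hy
      rw [hF, Finset.mem_insert, Finset.mem_union, Finset.mem_image, Finset.mem_image] at hy
      rcases hy with rfl | ⟨p, _, rfl⟩ | ⟨p, _, rfl⟩
      · exact hy0
      · exact p.1.2
      · exact p.2.2
    have hcard : 0 < F.card := Finset.card_pos.mpr ⟨y0, Finset.mem_insert_self _ _⟩
    obtain ⟨n, hn⟩ : ∃ n, F.card = n + 1 := ⟨F.card - 1, by omega⟩
    let e : F ≃ Fin (n + 1) := F.equivFinOfCardEq hn
    obtain ⟨x, hxK, hx⟩ := h n (fun i => ((e.symm i : F) : E))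
      (fun i j hij => e.symm.injective (Subtype.ext hij)) (fun i => hFB _ (e.symm i).2)
    refine ⟨fun y => if hy : y ∈ F then x (e ⟨y, hy⟩) else x0 0, ?_, ?_⟩
    · intro y _
      simp only
      split_ifs with hy
      · exact hxK _
      · exact hk0
    · rw [mem_iInter₂]
      intro p hp
      have h1 : (p.1 : E) ∈ F := Finset.mem_insert_of_mem
        (Finset.mem_union_left _ (Finset.mem_image_of_mem _ hp))
      have h2 : (p.2 : E) ∈ F := Finset.mem_insert_of_mem
        (Finset.mem_union_right _ (Finset.mem_image_of_mem _ hp))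
      show ‖(p.1 : E) - p.2‖ ≤ _
      simp only [h1, h2, dif_pos]
      have := hx (e ⟨p.1, h1⟩) (e ⟨p.2, h2⟩)
      simpa using this)
  refine ⟨ψ, fun y _ => hψK y (mem_univ y), fun y hy z hz => ?_⟩
  have := mem_iInter.mp hψ (⟨y, hy⟩, ⟨z, hz⟩)
  exact this

end

/-! ### Volumes -/

/-- a map on `B` into `K` that does not decrease distances shows `vol B ≤ vol K` -/
lemma volume_le_of_expansion {d : ℕ} {B K : Set (E d)} {ψ : E d → E d}
    (hψK : ∀ y ∈ B, ψ y ∈ K) (hψ : ∀ y ∈ B, ∀ z ∈ B, ‖y - z‖ ≤ ‖ψ y - ψ z‖) :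
    volume B ≤ volume K := by
  classical
  have hinj : InjOn ψ B := by
    intro y hy z hz hyz
    have := hψ y hy z hz
    rw [hyz, sub_self, norm_zero] at this
    exact sub_eq_zero.mp (norm_le_zero_iff.mp this)
  set g : E d → E d := Function.invFunOn ψ B with hg
  have hgψ : ∀ y ∈ B, g (ψ y) = y := fun y hy => hinj.leftInvOn_invFunOn hy
  have hlip : LipschitzOnWith 1 g (ψ '' B) := by
    apply LipschitzOnWith.of_dist_le_mul
    rintro _ ⟨y, hy, rfl⟩ _ ⟨z, hz, rfl⟩
    rw [hgψ y hy, hgψ z hz, dist_eq_norm, dist_eq_norm, NNReal.coe_one, one_mul]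
    exact hψ y hy z hz
  have himg : g '' (ψ '' B) = B := by
    rw [← image_comp]
    ext y
    constructor
    · rintro ⟨z, hz, rfl⟩
      simpa [hgψ z hz] using hz
    · intro hy
      exact ⟨y, hy, hgψ y hy⟩
  have h1 := hlip.hausdorffMeasure_image_le (d := (finrank ℝ (E d) : ℝ)) (by positivity)
  rw [himg] at h1
  have h2 : (μH[(finrank ℝ (E d) : ℝ)] : Measure (E d)) B ≤ μH[(finrank ℝ (E d) : ℝ)] K := by
    refine h1.trans ?_
    simp only [ENNReal.coe_one, ENNReal.one_rpow, one_mul]
    apply measure_mono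
    rintro _ ⟨y, hy, rfl⟩
    exact hψK y hy
  have h3 : (volume : Measure (E d)) =
      Measure.addHaarScalarFactor volume (μH[(finrank ℝ (E d) : ℝ)] : Measure (E d)) •
        (μH[(finrank ℝ (E d) : ℝ)] : Measure (E d)) :=
    Measure.isAddLeftInvariant_eq_smul _ _
  rw [h3, Measure.smul_apply, Measure.smul_apply]
  gcongr

/-- **Sharp covering theorem.** A compact set of volume less than that of a ball of radius `ε`
lies in one generalized strip whose defining function is `ε`-Lipschitz. -/
theorem compact_cover_sharp {d : ℕ} {K : Set (E d)} (hK : IsCompact K) {ε : ℝ≥0} (hε : 0 < ε)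
    (hvol : volume K < volume (ball (0 : E d) ε)) :
    ∃ f : E d → ℝ, IsPolyhedral f ∧ LipschitzWith ε f ∧ K ⊆ strip f := by
  by_contra hcon
  have hε' : (0 : ℝ) < ε := hε
  obtain ⟨R, hR⟩ := hK.isBounded.subset_closedBall 0
  obtain ⟨ψ, hψK, hψ⟩ := exists_expansion (B := closedBall (0 : E d) ε) hK
    ⟨0, mem_closedBall_self hε'.le⟩ (by
      intro n a hinj ha
      have ha' : ∀ i, ‖a i‖ ≤ ε := fun i => by simpa using ha i
      by_contra hno
      obtain ⟨b, hb⟩ := exists_heights' hε' ha' hK (R := R) (fun x hx => by simpa using hR hx) hno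
      exact hcon ⟨poly a b, poly_isPolyhedral a b, poly_lip a b ε ha', subset_strip hinj hb⟩)
  have h1 := volume_le_of_expansion hψK hψ
  have h2 : volume (ball (0 : E d) ε) ≤ volume (closedBall (0 : E d) ε) :=
    measure_mono ball_subset_closedBall
  exact absurd hvol (not_lt.mpr (h2.trans h1))

end Pool.Agent.Y513.Gam
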