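import Pool.Agent.Y513.Gam.Sharp

/-!
# The upper bound `γ(A) ≤ 2ρ` for every set `A` with `vol A ≤ vol (ball 0 ρ)`
-/

set_option autoImplicit false

open MeasureTheory Metric Set Module
open scoped ENNReal NNReal
open Pool.Agent.Results.MP_0a22a9_gt.NullSets (E IsPolyhedral IsProx strip IsGenStrip lipConst
  width gamma poly poly_isPolyhedral poly_lip subset_strip)

namespace Pool.Agent.Y513.Gam

variable {d : ℕ}

/-- a cover of a set of measure less than `v 0` by compact sets of measures less than `v j` -/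
lemma exists_compacts' {A : Set (E d)} (v : ℕ → ℝ≥0∞) (hv : ∀ j, 0 < v j)
    (hA : volume A < v 0) :
    ∃ K : ℕ → Set (E d), (∀ j, IsCompact (K j)) ∧ (∀ j, volume (K j) < v j) ∧ A ⊆ ⋃ j, K j := by
  classical
  -- a cover by countably many closed balls
  obtain ⟨e, he0, he1⟩ := ENNReal.lt_iff_exists_add_pos_lt.mp hA
  have he0' : (e : ℝ≥0∞) ≠ 0 := by exact_mod_cast he0.ne'
  obtain ⟨t, r, ht, -, -, hcov, hsum⟩ := Besicovitch.exists_closedBall_covering_tsum_measure_le
    (volume : Measure (E d)) he0' (fun _ => Ioi 0) A (fun x _ δ hδ => by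
      refine ⟨δ / 2, ?_, ?_, ?_⟩
      · exact half_pos hδ
      · exact half_pos hδ
      · exact half_lt_self hδ)
  have := ht.toEncodable
  set Q : ℕ → Set (E d) := fun n => ⋃ b ∈ Encodable.decode₂ t n, closedBall (b : E d) (r b) with hQ
  have hQc : ∀ n, IsCompact (Q n) := fun n =>
    Encodable.iUnion_decode₂_cases (C := IsCompact) isCompact_empty
      (fun b => isCompact_closedBall _ _)
  have hQsum : ∑' n, volume (Q n) ≤ volume A + e := by
    have := tsum_iUnion_decode₂ (fun s : Set (E d) => volume s) measure_empty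
      (fun b : t => closedBall (b : E d) (r b))
    exact (le_of_eq this).trans hsum
  have hQcov : A ⊆ ⋃ n, Q n := by
    have := Encodable.iUnion_decode₂ (fun b : t => closedBall (b : E d) (r b))
    rw [hQ, this]
    intro x hx
    have h1 := hcov hx
    simp only [mem_iUnion] at h1 ⊢
    obtain ⟨y, hy, hxy⟩ := h1
    exact ⟨⟨y, hy⟩, hxy⟩
  have hfin : ∑' n, volume (Q n) ≠ ⊤ := (hQsum.trans_lt he1).ne_top
  -- block boundaries
  have htail := ENNReal.tendsto_sum_nat_add _ hfin
  have hM : ∀ j, ∃ m, ∀ n, m ≤ n → ∑' k, volume (Q (k + n)) < v j := by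
    intro j
    have := htail.eventually_lt_const (hv j)
    obtain ⟨m, hm⟩ := Filter.eventually_atTop.1 this
    exact ⟨m, hm⟩
  choose M hM using hM
  let N : ℕ → ℕ := fun j => ∑ i ∈ Finset.range j, (M (i + 1) + 1)
  have hN0 : N 0 = 0 := by simp [N]
  have hNs : ∀ j, N (j + 1) = N j + (M (j + 1) + 1) := fun j => Finset.sum_range_succ _ _
  have hNmono : ∀ j, N j < N (j + 1) := fun j => by rw [hNs]; omega
  have hNlt : ∀ j, ∑' k, volume (Q (k + N j)) < v j := by
    intro j
    cases j with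
    | zero =>
      rw [hN0]
      simp only [add_zero]
      exact hQsum.trans_lt he1
    | succ j =>
      apply hM
      rw [hNs]
      omega
  refine ⟨fun j => ⋃ k ∈ Finset.Ico (N j) (N (j + 1)), Q k, fun j => ?_, fun j => ?_, ?_⟩
  · exact (Finset.Ico (N j) (N (j + 1))).isCompact_biUnion fun k _ => hQc k
  · refine lt_of_le_of_lt (measure_biUnion_finset_le _ _) (lt_of_le_of_lt ?_ (hNlt j))
    rw [Finset.sum_Ico_eq_sum_range]
    have : ∀ k, volume (Q (N j + k)) = volume (Q (k + N j)) := fun k => by rw [add_comm]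
    simp only [this]
    exact ENNReal.sum_le_tsum _
  · intro x hx
    obtain ⟨k, hk⟩ := mem_iUnion.1 (hQcov hx)
    have hex : ∃ j, k < N (j + 1) := by
      have hge : ∀ j, j ≤ N j := by
        intro j
        induction j with
        | zero => omega
        | succ j ih => have := hNmono j; omega
      exact ⟨k, by have := hge (k + 1); omega⟩
    have hj := Nat.find_spec hex
    refine mem_iUnion.2 ⟨Nat.find hex, mem_iUnion₂.2 ⟨k, ?_, hk⟩⟩
    rw [Finset.mem_Ico]
    refine ⟨?_, hj⟩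
    rcases Nat.eq_zero_or_pos (Nat.find hex) with h0 | hpos
    · rw [h0, hN0]; omega
    · have := Nat.find_min hex (Nat.sub_lt hpos one_pos)
      rw [Nat.sub_add_cancel (show 1 ≤ Nat.find hex from hpos)] at this
      exact not_lt.1 this

lemma vol_ball_lt (hd : 1 ≤ d) {r s : ℝ} (hr : 0 ≤ r) (hrs : r < s) :
    volume (ball (0 : E d) r) < volume (ball (0 : E d) s) := by
  have hs : 0 < s := hr.trans_lt hrs
  rcases hr.eq_or_lt with h0 | h0
  · rw [← h0, ball_zero, measure_empty]
    exact measure_ball_pos volume _ hs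
  · rw [Measure.addHaar_ball_of_pos _ _ h0, Measure.addHaar_ball_of_pos _ _ hs,
      finrank_euclideanSpace_fin]
    apply ENNReal.mul_lt_mul_left (measure_ball_pos volume _ one_pos).ne'
      measure_ball_lt_top.ne
    rw [ENNReal.ofReal_lt_ofReal_iff (by positivity)]
    exact pow_lt_pow_left₀ hrs hr (by omega)

/-- **The upper bound.** -/
theorem gamma_le (hd : 1 ≤ d) (A : Set (E d)) (ρ : ℝ≥0)
    (hA : volume A ≤ volume (ball (0 : E d) ρ)) : gamma A ≤ 2 * ρ := by
  apply ENNReal.le_of_forall_pos_le_add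
  intro δ hδ _
  obtain ⟨ε', hε0, hεsum⟩ := NNReal.exists_pos_sum_of_countable (ι := ℕ) (half_pos hδ).ne'
  obtain ⟨c, hc, hcδ⟩ := hεsum
  let ε : ℕ → ℝ≥0 := fun j => (if j = 0 then ρ else 0) + ε' j
  have hεpos : ∀ j, 0 < ε j := fun j => add_pos_of_nonneg_of_pos zero_le (hε0 j)
  have hε00 : ε 0 = ρ + ε' 0 := by simp [ε]
  obtain ⟨K, hK, hKv, hcov⟩ := exists_compacts' (A := A)
    (fun j => volume (ball (0 : E d) ((ε j : ℝ))))
    (fun j => measure_ball_pos volume _ (hεpos j)) (by
      refine hA.trans_lt ?_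
      apply vol_ball_lt hd ρ.coe_nonneg
      rw [hε00]
      push_cast
      have : (0 : ℝ) < ε' 0 := hε0 0
      linarith)
  choose f hf hlip hKf using fun j => compact_cover_sharp (hK j) (hεpos j) (hKv j)
  refine iInf_le_of_le (fun j => strip (f j)) (iInf_le_of_le (fun j => ⟨f j, hf j, rfl⟩)
    (iInf_le_of_le (hcov.trans (iUnion_mono hKf)) ?_))
  have hw : ∀ j, width (strip (f j)) ≤ 2 * (ε j : ℝ≥0∞) := by
    intro j
    unfold width
    gcongr
    refine iInf_le_of_le (f j) (iInf_le_of_le (hf j) (iInf_le_of_le rfl ?_))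
    exact iInf_le_of_le (ε j) (iInf_le_of_le (hlip j) le_rfl)
  have hsum : ∑' j, (ε j : ℝ≥0∞) = ρ + c := by
    have h1 : ∀ j, (ε j : ℝ≥0∞) = (if j = 0 then (ρ : ℝ≥0∞) else 0) + (ε' j : ℝ≥0∞) := by
      intro j
      simp only [ε]
      push_cast
      congr 1
      split_ifs <;> simp
    simp only [h1]
    rw [ENNReal.tsum_add, tsum_ite_eq, ← ENNReal.coe_tsum hc.summable, hc.tsum_eq]
  calc ∑' j, width (strip (f j)) ≤ ∑' j, 2 * (ε j : ℝ≥0∞) := ENNReal.tsum_le_tsum hw
    _ = 2 * ∑' j, (ε j : ℝ≥0∞) := ENNReal.tsum_mul_left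
    _ = 2 * ρ + 2 * (c : ℝ≥0∞) := by rw [hsum, mul_add]
    _ ≤ 2 * ρ + 2 * ((δ / 2 : ℝ≥0) : ℝ≥0∞) := by gcongr
    _ = 2 * ρ + δ := by
      congr 1
      rw [← ENNReal.coe_two, ← ENNReal.coe_mul]
      congr 1
      exact mul_div_cancel₀ _ two_ne_zero

end Pool.Agent.Y513.Gam
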